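import Pool.Agent.Lib_c1afad_aw.Two

/-!
# Almost all surjective, and almost all transitive, cellular automata of a fixed window are
# permutive, and so have dense periodic points
-/

namespace Pool.Agent.Results.MP_c1afad_an.AlmostAllPermutive

open PermCA AW

/-- The exponent of the bound for the window `k + 2`. -/
noncomputable def expo (k n : ℕ) (ε : ℝ) : ℝ :=
  if k = 0 then (1 - ε) * (n : ℝ) ^ 2 else (n : ℝ) ^ ((k : ℝ) + 2 - ε)

/-- Cellular automata `(F x) i = f (x i, x (i + 1), .., x (i + k + 1))` of window `k + 2` over the
alphabet `Fin n`.  `SurjW k n` is the set of the local rules `f` for which `F` is surjective,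
`TransW k n` is the set of those for which `F` is topologically transitive, and `BadW k n` is the set
of the rules in `SurjW k n` which are neither left nor right permutive.  For every `k` and every
`ε > 0`, for all large `n` the set `BadW k n` has at most `2 ^ (- expo k n ε)` times as many elements
as `TransW k n`, where `expo k n ε = n ^ (k + 2 - ε)`, and even `(1 - ε) n ^ 2` if `k = 0`;
the set `TransW k n` is contained in `SurjW k n`, and for all surjective rules outside of `BadW k n`
the points which are periodic for both the shift and the cellular automaton are dense. -/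
theorem result (k : ℕ) {ε : ℝ} (hε : 0 < ε) : ∃ n₀ : ℕ, ∀ n : ℕ, n₀ ≤ n →
    ((BadW k n).ncard : ℝ) ≤ 2 ^ (-(expo k n ε)) * ((TransW k n).ncard : ℝ) ∧
    TransW k n ⊆ SurjW k n ∧
    ∀ f ∈ SurjW k n, f ∉ BadW k n → Dense (JP (CAw k f)) := by
  obtain ⟨n₁, h1⟩ := AW.main k hε
  obtain ⟨n₂, h2⟩ := two hε
  refine ⟨max n₁ n₂, fun n hn => ?_⟩
  obtain ⟨h3, h4, h5⟩ := h1 n (le_trans (le_max_left _ _) hn)
  refine ⟨?_, h4, h5⟩
  unfold expo
  split_ifs with hk
  · subst hk
    exact h2 n (le_trans (le_max_right _ _) hn)
  · exact h3

end Pool.Agent.Results.MP_c1afad_an.AlmostAllPermutive
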