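import Pool.Agent.Lib_c1afad_gs.Final

/-!
# Surjective cellular automata with density-stable periodic points or conservation laws
-/

namespace Pool.Agent.Results.MP_c1afad_an.ConservationLaws

open Function CurveTrace

variable {A : Type*}

/-- The number of places `i = 0, …, n - 1` at which `x` and `y` differ. -/
noncomputable def diffs (n : ℕ) (x y : ℤ → A) : ℕ := {i : ℕ | i < n ∧ x i ≠ y i}.ncard

/-- `F` is stable at `p` for the density distance, among spatially periodic points: if the
proportion of the places at which `x` and `p` differ is small, then the proportion of the places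
at which `F^t x` and `F^t p` differ is small for all `t`. -/
def DensityStable (F : (ℤ → A) → (ℤ → A)) (p : ℤ → A) : Prop :=
  ∀ ε : ℝ, 0 < ε → ∃ δ : ℝ, 0 < δ ∧ ∀ n : ℕ, 0 < n → ∀ x : ℤ → A, sh^[n] p = p →
    sh^[n] x = x → (diffs n x p : ℝ) ≤ δ * n →
    ∀ t : ℕ, (diffs n (F^[t] x) (F^[t] p) : ℝ) ≤ ε * n

/-- `e` depends on finitely many coordinates. -/
def IsLocal (e : (ℤ → A) → ℝ) : Prop :=
  ∃ w : ℕ, ∀ x y : ℤ → A, (∀ i : ℤ, |i| ≤ (w : ℤ) → x i = y i) → e x = e y

/-- The mean energy of a point `x` of spatial period `n`. -/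
noncomputable def mean (e : (ℤ → A) → ℝ) (n : ℕ) (x : ℤ → A) : ℝ :=
  (∑ i ∈ Finset.range n, e (sh^[i] x)) / n

/-- The energy is conserved by `F` on spatially periodic points. -/
def Conserved (F : (ℤ → A) → (ℤ → A)) (e : (ℤ → A) → ℝ) : Prop :=
  ∀ n : ℕ, 0 < n → ∀ x : ℤ → A, sh^[n] x = x → mean e n (F x) = mean e n x

/-- The energy does not increase under `F` on spatially periodic points. -/
def Nonincreasing (F : (ℤ → A) → (ℤ → A)) (e : (ℤ → A) → ℝ) : Prop :=
  ∀ n : ℕ, 0 < n → ∀ x : ℤ → A, sh^[n] x = x → mean e n (F x) ≤ mean e n x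

/-- The mean energy of the point `x` of spatial period `n` exceeds the mean energy of every
spatially periodic point by at most `ε`. -/
def Low (e : (ℤ → A) → ℝ) (ε : ℝ) (n : ℕ) (x : ℤ → A) : Prop :=
  ∀ m : ℕ, 0 < m → ∀ y : ℤ → A, sh^[m] y = y → mean e n x ≤ mean e m y + ε

/-- Ground states: the spatially periodic points of least mean energy. -/
def IsGround (e : (ℤ → A) → ℝ) (x : ℤ → A) : Prop :=
  ∃ n : ℕ, 0 < n ∧ sh^[n] x = x ∧ Low e 0 n x

theorem shz_eq (i : ℕ) (x : ℤ → A) : sh^[i] x = shz (i : ℤ) x := iterate_sh i x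

/-- Let `F` be a surjective cellular automaton on a full shift.
(1) If `F` has radius `r`, `p` is jointly periodic, `n` is a common spatial period of `p` and `x`
and for every `t` the points `F^t x` and `F^t p` differ at fewer than `n / (4 r)` of the `n`
places, then `x` is jointly periodic.
(2) If `F` is stable for the density distance at some jointly periodic point then the jointly
periodic points are dense.
(3) If `F` is injective on a closed shift-invariant set `Y` then there is `L` such that every
spatially periodic point `x` is jointly periodic for which, for all `t`, more than half of the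
windows of length `L` of `F^t x` occur in `Y`.
(4) Let `e` be a local function (the energy) such that either the energy is conserved and there
are only finitely many ground states, or the energy does not increase and `F` is injective on the
closure of the set of ground states.  Then all spatially periodic points of sufficiently low
energy are periodic for `F`, and the jointly periodic points are dense. -/
theorem result {A : Type} [Fintype A] [Nonempty A] [TopologicalSpace A] [DiscreteTopology A]
    (F : (ℤ → A) → (ℤ → A)) (hcont : Continuous F) (hcomm : ∀ x, F (sh x) = sh (F x))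
    (hsurj : Surjective F) :
    (∃ r, HasRadius F r) ∧
    (∀ r : ℕ, HasRadius F r → ∀ n : ℕ, 0 < n → ∀ p ∈ JP F, sh^[n] p = p →
      ∀ x : ℤ → A, sh^[n] x = x → (∀ t : ℕ, 4 * r * diffs n (F^[t] x) (F^[t] p) < n) →
      x ∈ JP F) ∧
    (∀ p ∈ JP F, DensityStable F p → Dense (JP F)) ∧
    (∀ Y : Set (ℤ → A), IsClosed Y → (∀ y, sh y ∈ Y ↔ y ∈ Y) → Set.InjOn F Y →
      ∃ L : ℕ, ∀ n : ℕ, 0 < n → ∀ x : ℤ → A, sh^[n] x = x →
        (∀ t : ℕ, n < 2 * {i : ℕ | i < n ∧ OccursAt Y L (F^[t] x) i}.ncard) → x ∈ JP F) ∧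
    (∀ e : (ℤ → A) → ℝ, IsLocal e →
      (Conserved F e ∧ {g | IsGround e g}.Finite) ∨
        (Nonincreasing F e ∧ Set.InjOn F (closure {g | IsGround e g})) →
      (∃ ε : ℝ, 0 < ε ∧ ∀ n : ℕ, 0 < n → ∀ x : ℤ → A, sh^[n] x = x → Low e ε n x → x ∈ JP F) ∧
        Dense (JP F)) := by
  classical
  have hc : Comm F := hcomm
  obtain ⟨r0, hr0⟩ := exists_radius hcont hcomm
  refine ⟨⟨r0, hr0⟩, ?_, ?_, ?_, ?_⟩
  · intro r hr n hn p hp hpn x hx h
    exact ⟨⟨n, hn, hx⟩, close hc hr hsurj hn hx hpn hp.2 h⟩
  · intro p hp hst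
    apply dense_of_stable hc hr0 hsurj hp
    intro ε hε
    obtain ⟨δ, hδ, h⟩ := hst ε hε
    exact ⟨δ, hδ, fun n hn x hpn hx hd t => h n hn x hpn hx hd t⟩
  · intro Y hY hYs hinj
    obtain ⟨L, hL⟩ := stable hcont hc hr0 hsurj hY (by
      have h1 : ∀ y ∈ Y, ∀ k : ℕ, shz (k : ℤ) y ∈ Y := by
        intro y hy k
        induction k with
        | zero => rw [Nat.cast_zero, shz_zero]; exact hy
        | succ k ih =>
          have := (hYs _).2 ih
          rw [sh_eq, shz_shz, add_comm] at this
          push_cast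
          exact this
      have h2 : ∀ y ∈ Y, ∀ k : ℕ, shz (-(k : ℤ)) y ∈ Y := by
        intro y hy k
        induction k with
        | zero => rw [Nat.cast_zero, neg_zero, shz_zero]; exact hy
        | succ k ih =>
          apply (hYs _).1
          rw [sh_eq, shz_shz]
          have e : (1 : ℤ) + -((k + 1 : ℕ) : ℤ) = -(k : ℤ) := by push_cast; ring
          rw [e]
          exact ih
      intro y hy m
      rcases Int.eq_nat_or_neg m with ⟨k, rfl | rfl⟩
      · exact h1 y hy k
      · exact h2 y hy k) hinj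
    exact ⟨L, fun n hn x hx h => hL n hn x hx h⟩
  · intro e ⟨w, hw⟩ hG
    -- the energy as a function of the coordinates `0, …, 2 w`
    let e' : (ℤ → A) → ℝ := fun x => e (shz w x)
    have he' : Loc (2 * w) e' := by
      intro x y h
      apply hw
      intro i hi
      have hi' := abs_le.1 hi
      obtain ⟨a, ha⟩ := Int.eq_ofNat_of_zero_le (a := i + w) (by linarith)
      rw [shz_apply, shz_apply, ha]
      apply h
      zify
      rw [← ha]
      linarith
    have hsum : ∀ (n : ℕ) (x : ℤ → A), sh^[n] x = x →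
        esum e' n x = ∑ i ∈ Finset.range n, e (sh^[i] x) := by
      intro n x hx
      have h1 : ∑ i ∈ Finset.range n, e (sh^[i] x) = esum e n x := by
        unfold esum
        exact Finset.sum_congr rfl fun i _ => by rw [shz_eq]
      have h2 : esum e' n x = esum e n (shz w x) := by
        unfold esum
        apply Finset.sum_congr rfl
        intro i _
        show e (shz w (shz i x)) = e (shz i (shz w x))
        rw [shz_shz, shz_shz, add_comm]
      rw [h1, h2, esum_shz e (show x ∈ Per A n from hx)]
    have hmean : ∀ (n : ℕ) (x : ℤ → A), sh^[n] x = x → mean e n x = esum e' n x / n := by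
      intro n x hx
      rw [hsum n x hx]
      rfl
    have hFper : ∀ (n : ℕ) (x : ℤ → A), sh^[n] x = x → sh^[n] (F x) = F x :=
      fun n x hx => Per_map hc (show x ∈ Per A n from hx)
    -- ground states
    have hgr : ∀ e0 : ℝ, (∃ n : ℕ, 0 < n ∧ ∃ x ∈ Per A n, esum e' n x = n * e0) →
        (∀ n : ℕ, 0 < n → ∀ x ∈ Per A n, n * e0 ≤ esum e' n x) →
        {g | IsGround e g} = {g | Gr e' e0 g} := by
      intro e0 ⟨n0, hn0, x0, hx0, hs0⟩ h0
      ext g
      constructor
      · rintro ⟨n, hn, hg, hlow⟩
        refine ⟨n, hn, hg, le_antisymm ?_ (h0 n hn g hg)⟩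
        have h1 := hlow n0 hn0 x0 hx0
        rw [hmean n g hg, hmean n0 x0 hx0, hs0, add_zero] at h1
        have hn' : (0 : ℝ) < n := by exact_mod_cast hn
        have hn0' : (n0 : ℝ) ≠ 0 := by exact_mod_cast hn0.ne'
        rw [mul_div_cancel_left₀ _ hn0', div_le_iff₀ hn'] at h1
        linarith
      · rintro ⟨n, hn, hg, hgs⟩
        refine ⟨n, hn, hg, fun m hm y hy => ?_⟩
        rw [hmean n g hg, hmean m y hy, hgs, add_zero]
        have hn' : (n : ℝ) ≠ 0 := by exact_mod_cast hn.ne'
        have hm' : (0 : ℝ) < m := by exact_mod_cast hm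
        rw [mul_div_cancel_left₀ _ hn', le_div_iff₀ hm']
        linarith [h0 m hm y hy]
    obtain ⟨e0, ⟨n0, hn0, x0, hx0, hs0⟩, h0, ⟨ε, hε, hlow⟩, hdense⟩ :=
      energy_main hcont hc hr0 hsurj he' (by
        intro e0 hatt h0
        rw [hgr e0 hatt h0] at hG
        rcases hG with ⟨hcons, hfin⟩ | ⟨hnon, hinj⟩
        · right
          refine ⟨fun n hn x hx => ?_, hfin⟩
          have h1 := hcons n hn x hx
          rw [hmean n _ (hFper n x hx), hmean n x hx] at h1
          have hn' : (n : ℝ) ≠ 0 := by exact_mod_cast hn.ne'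
          field_simp at h1
          exact h1
        · left
          refine ⟨fun n hn x hx => ?_, hinj⟩
          have h1 := hnon n hn x hx
          rw [hmean n _ (hFper n x hx), hmean n x hx] at h1
          have hn' : (0 : ℝ) < n := by exact_mod_cast hn
          rwa [div_le_div_iff_of_pos_right hn'] at h1)
    refine ⟨⟨ε, hε, fun n hn x hx hl => hlow n hn x hx ?_⟩, hdense⟩
    have h1 := hl n0 hn0 x0 hx0
    rw [hmean n x hx, hmean n0 x0 hx0, hs0] at h1
    have hn' : (0 : ℝ) < n := by exact_mod_cast hn
    have hn0' : (n0 : ℝ) ≠ 0 := by exact_mod_cast hn0.ne'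
    rw [mul_div_cancel_left₀ _ hn0', div_le_iff₀ hn'] at h1
    linarith

end Pool.Agent.Results.MP_c1afad_an.ConservationLaws
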