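import Pool.Agent.Lib_c1afad.Radius

/-!
# Jointly periodic points of surjective cellular automata from spatially periodic points
which share a trace along a curve
-/

namespace Pool.Agent.Results.MP_c1afad_an.RingTraces

open Function CurveTrace

/-- The points of `S` have spatial period `n` and the same trace, at all times, in windows of
width `w` along a curve `h` of slope at most `k`; here `r` is a radius of `F`, `2 r ≤ w` and
`r + k ≤ w`. -/
def SharedTrace {A : Type*} (F : (ℤ → A) → (ℤ → A)) (r n : ℕ) (S : Set (ℤ → A)) : Prop :=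
  (∀ x ∈ S, sh^[n] x = x) ∧ ∃ k w : ℕ, 2 * r ≤ w ∧ r + k ≤ w ∧ ∃ h : ℕ → ℤ,
    (∀ s, |h (s + 1) - h s| ≤ (k : ℤ)) ∧
    ∀ x ∈ S, ∀ y ∈ S, ∀ s a : ℕ, a < w → F^[s] x (h s + a) = F^[s] y (h s + a)

/-- Let `F` be a surjective cellular automaton on a full shift; it has a radius, and let `r` be
any radius of it.  If the points of a set `S` of points of spatial period `n` share a trace along
a curve, then for some `K` and all `j ≥ 1` there are at least `|S| ^ j / K` points of spatial
period `j n` which are periodic for `F`.  Hence if `(|A| ^ l - 1) ^ n < |S| ^ l` then every word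
of length `l` occurs in a jointly periodic point, and if such `S` exist with `|S| > β ^ n` for
every `β < |A|`, then the jointly periodic points are dense. -/
theorem result {A : Type} [Fintype A] [Nonempty A] [TopologicalSpace A] [DiscreteTopology A]
    (F : (ℤ → A) → (ℤ → A)) (hcont : Continuous F) (hcomm : ∀ x, F (sh x) = sh (F x))
    (hsurj : Surjective F) :
    (∃ r, HasRadius F r) ∧ ∀ r, HasRadius F r →
      (∀ n : ℕ, 0 < n → ∀ S : Set (ℤ → A), SharedTrace F r n S →
        (∃ K : ℕ, ∀ j : ℕ, 0 < j → S.ncard ^ j ≤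
          K * {x | sh^[j * n] x = x ∧ ∃ q : ℕ, 0 < q ∧ F^[q] x = x}.ncard) ∧
        ∀ l : ℕ, 0 < l → (Fintype.card A ^ l - 1) ^ n < S.ncard ^ l → ∀ u : ℤ → A,
          ∃ x ∈ JP F, ∀ i : ℤ, 0 ≤ i → i < l → x i = u i) ∧
      ((∀ β : ℝ, β < Fintype.card A → ∃ n : ℕ, 0 < n ∧ ∃ S : Set (ℤ → A),
        SharedTrace F r n S ∧ β ^ n < S.ncard) → Dense (JP F)) := by
  classical
  refine ⟨exists_radius hcont hcomm, ?_⟩
  intro r hr
  have part2 : ∀ n : ℕ, 0 < n → ∀ S : Set (ℤ → A), SharedTrace F r n S →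
      ∀ l : ℕ, 0 < l → (Fintype.card A ^ l - 1) ^ n < S.ncard ^ l → ∀ u : ℤ → A,
          ∃ x ∈ JP F, ∀ i : ℤ, 0 ≤ i → i < l → x i = u i := by
    intro n hn S ⟨hS, k, w, h2, hk, h, hcv, htr⟩ l hl hcard u
    rw [← Nat.card_eq_fintype_card] at hcard
    obtain ⟨p, hp, x, hx, hxu⟩ := words hcomm hr hsurj h2 hk hn h hcv S hS htr l hl hcard u
    exact ⟨x, mem_JP_of hp hx, hxu⟩
  refine ⟨?_, ?_⟩
  · intro n hn S hST
    refine ⟨?_, part2 n hn S hST⟩
    obtain ⟨hS, k, w, h2, hk, h, hcv, htr⟩ := hST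
    exact growth hcomm hr hsurj h2 hk hn h hcv S hS htr
  · intro hβ
    apply dense_JP hcomm
    intro l hl u
    -- `β = (|A| ^ l - 1) ^ (1 / l)`
    have hα1 : (1 : ℝ) ≤ Fintype.card A := by exact_mod_cast Fintype.card_pos
    have hαl : (1 : ℝ) ≤ (Fintype.card A : ℝ) ^ l := one_le_pow₀ hα1
    have hlR : (l : ℝ) ≠ 0 := by exact_mod_cast hl.ne'
    set b : ℝ := (Fintype.card A : ℝ) ^ l - 1 with hb
    have hb0 : 0 ≤ b := by rw [hb]; linarith
    set β : ℝ := b ^ ((l : ℝ)⁻¹) with hβdef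
    have hβ0 : 0 ≤ β := Real.rpow_nonneg hb0 _
    have hβl : β ^ l = b := by
      rw [hβdef, ← Real.rpow_natCast, ← Real.rpow_mul hb0, inv_mul_cancel₀ hlR, Real.rpow_one]
    have hβA : β < Fintype.card A := by
      by_contra hcon
      push Not at hcon
      have : (Fintype.card A : ℝ) ^ l ≤ β ^ l := pow_le_pow_left₀ (by positivity) hcon l
      rw [hβl, hb] at this
      linarith
    obtain ⟨n, hn, S, hST, hSn⟩ := hβ β hβA
    apply part2 n hn S hST l hl _ u
    have h1 : (β ^ n) ^ l < (S.ncard : ℝ) ^ l := pow_lt_pow_left₀ hSn (by positivity) hl.ne'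
    rw [← pow_mul, mul_comm, pow_mul, hβl] at h1
    have h2 : ((Fintype.card A ^ l - 1 : ℕ) : ℝ) = b := by
      rw [Nat.cast_sub (Nat.one_le_pow _ _ Fintype.card_pos)]
      push_cast
      rfl
    rw [← h2] at h1
    exact_mod_cast h1

end Pool.Agent.Results.MP_c1afad_an.RingTraces
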