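import Pool.Agent.Lib_c1afad.Radius
import Pool.Agent.Lib_c1afad.Decay

/-!
# Slowly decaying traces give dense jointly periodic points
-/

namespace Pool.Agent.Results.MP_c1afad_an.SlowTraces

open Function MeasureTheory CurveTrace

open scoped ENNReal

/-- For all `l ≥ 1` and `w` there is a constant `C`, depending only on `A`, `l` and `w`, such that
for every surjective cellular automaton `F` with a radius `r`, `2 r ≤ w`, and every `k` with
`r + k ≤ w`: if for one time `t`, some trace of width `w` up to time `t` along some curve of slope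
at most `k` has probability at least `C / log t`, then every word of length `l` occurs in a jointly
periodic point.  Hence if for every `C` there are such `t`, curve and trace, then the jointly
periodic points are dense; this holds in particular if one trace, for all times, along one curve
has positive probability. -/
theorem result {A : Type} [Fintype A] [Nonempty A] [TopologicalSpace A] [DiscreteTopology A]
    [MeasurableSpace A] [BorelSpace A] :
    (∀ l w : ℕ, 0 < l → ∃ C : ℝ, 0 < C ∧ ∀ F : (ℤ → A) → (ℤ → A), Continuous F →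
      (∀ x, F (sh x) = sh (F x)) → Surjective F → ∀ r k : ℕ, HasRadius F r → 2 * r ≤ w →
      r + k ≤ w → ∀ h : ℕ → ℤ, (∀ s, |h (s + 1) - h s| ≤ (k : ℤ)) →
      ∀ (t : ℕ) (c : ℕ → ℕ → A), C ≤ (unif A (Tr F w h t c)).toReal * Real.log t →
      ∀ u : ℤ → A, ∃ x ∈ JP F, ∀ i : ℤ, 0 ≤ i → i < l → x i = u i) ∧
    ∀ F : (ℤ → A) → (ℤ → A), Continuous F → (∀ x, F (sh x) = sh (F x)) → Surjective F →
      (∃ r, HasRadius F r) ∧ ∀ r k w : ℕ, HasRadius F r → 2 * r ≤ w → r + k ≤ w →
      ((∀ C : ℝ, ∃ (h : ℕ → ℤ) (t : ℕ) (c : ℕ → ℕ → A),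
        (∀ s, |h (s + 1) - h s| ≤ (k : ℤ)) ∧
        C ≤ (unif A (Tr F w h t c)).toReal * Real.log t) → Dense (JP F)) ∧
      ∀ (h : ℕ → ℤ) (c : ℕ → ℕ → A), (∀ s, |h (s + 1) - h s| ≤ (k : ℤ)) →
        unif A {x | ∀ s a : ℕ, a < w → F^[s] x (h s + a) = c s a} ≠ 0 → Dense (JP F) := by
  classical
  have main4 : ∀ l w : ℕ, 0 < l → ∃ C : ℝ, 0 < C ∧ ∀ F : (ℤ → A) → (ℤ → A), Continuous F →
      (∀ x, F (sh x) = sh (F x)) → Surjective F → ∀ r k : ℕ, HasRadius F r → 2 * r ≤ w →
      r + k ≤ w → ∀ h : ℕ → ℤ, (∀ s, |h (s + 1) - h s| ≤ (k : ℤ)) →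
      ∀ (t : ℕ) (c : ℕ → ℕ → A), C ≤ (unif A (Tr F w h t c)).toReal * Real.log t →
      ∀ u : ℤ → A, ∃ x ∈ JP F, ∀ i : ℤ, 0 ≤ i → i < l → x i = u i := by
    intro l w hl
    obtain ⟨C, hC0, hC⟩ := decay_words A l w hl
    refine ⟨C, hC0, ?_⟩
    intro F _ hc hs r k hr h2 hk h hcv t c hCt u
    obtain ⟨p, hp, x, hx, hxu⟩ := hC F r k hc hr hs h2 hk h hcv t c hCt u
    exact ⟨x, mem_JP_of hp hx, hxu⟩
  refine ⟨main4, ?_⟩
  intro F hcont hc hs
  refine ⟨exists_radius hcont hc, ?_⟩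
  intro r k w hr h2 hk
  have part5 : (∀ C : ℝ, ∃ (h : ℕ → ℤ) (t : ℕ) (c : ℕ → ℕ → A),
        (∀ s, |h (s + 1) - h s| ≤ (k : ℤ)) ∧
        C ≤ (unif A (Tr F w h t c)).toReal * Real.log t) → Dense (JP F) := by
    intro hC
    apply dense_JP hc
    intro l hl u
    obtain ⟨C, _, hC'⟩ := main4 l w hl
    obtain ⟨h, t, c, hcv, hCt⟩ := hC C
    exact hC' F hcont hc hs r k hr h2 hk h hcv t c hCt u
  refine ⟨part5, ?_⟩
  intro h c hcv hμ
  apply part5
  intro C
  set ε := (unif A {x | ∀ s a : ℕ, a < w → F^[s] x (h s + a) = c s a}).toReal with hε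
  have hε0 : 0 < ε := ENNReal.toReal_pos hμ (measure_ne_top _ _)
  obtain ⟨t, ht⟩ := ((Real.tendsto_log_atTop.comp tendsto_natCast_atTop_atTop).eventually
    (Filter.eventually_ge_atTop (C / ε))).exists
  refine ⟨h, t, c, hcv, ?_⟩
  have hle : ε ≤ (unif A (Tr F w h t c)).toReal := by
    apply ENNReal.toReal_mono (measure_ne_top _ _)
    apply measure_mono
    intro x hx s a _ ha
    exact hx s a ha
  simp only [comp_apply] at ht
  rw [div_le_iff₀ hε0] at ht
  have hlog : 0 ≤ Real.log (t : ℝ) := Real.log_natCast_nonneg t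
  calc C ≤ Real.log t * ε := ht
    _ ≤ (unif A (Tr F w h t c)).toReal * Real.log t := by
        rw [mul_comm]
        exact mul_le_mul_of_nonneg_right hle hlog

end Pool.Agent.Results.MP_c1afad_an.SlowTraces
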